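import Pool.Agent.Lib.MP_413903_an.Space

/-!
# MP_413903_an: the spaces `O(D(q, r))` are not complemented subspaces of Koethe spaces

`Dom q r` is the domain `D(q, r)` of the sphere, `OSp D` the space of the functions analytic in `D`
with the topology of uniform convergence on compact sets, `Koethe A` the Koethe echelon space
`λ¹(A)`.  The condition `∑ j / log (1 / r_j) < ∞` says that `0` is an irregular boundary point of
`D(q, r)` (Wiener's criterion).
-/

open NNReal

namespace Pool.Agent.Results.MP_413903_an.NotKoethe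

open Pool.Agent.Lib.MP_413903_an

theorem result (q : ℝ) (hq0 : 0 < q) (hq1 : q < 1) (r : ℕ → ℝ)
    (hr0 : ∀ j, 1 ≤ j → 0 < r j) (hr1 : ∀ j, 1 ≤ j → r j < q ^ j)
    (hsum : Summable fun j : ℕ => (j : ℝ) / Real.log (1 / r j))
    (ι : Type) (A : ι → ℕ → ℝ≥0) (S : OSp (Dom q r) →L[ℂ] Koethe A)
    (R : Koethe A →L[ℂ] OSp (Dom q r)) : ¬ ∀ f, R (S f) = f :=
  main_notKoethe ⟨q, r, hq0, hq1, hr0, hr1, hsum⟩ ι A S R

end Pool.Agent.Results.MP_413903_an.NotKoethe
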