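import Pool.Agent.Lib.MP_413903_an.T.Tame

/-!
# MP_413903_an: continuum many classes of spaces `O(D(q, r))` for tame isomorphisms

`Dom q r` is the domain `D(q, r)` of the sphere, `OSp D` the space of the functions analytic in `D`
with the topology of uniform convergence on compact sets, `Removed q r` the removed set (the point
`0` and the closed discs), `Metric.infDist z (Removed q r)` the distance of `z` to it.
`TameOn S A q r r' T` says that for every `c ∈ A` the sup norm of `T f` over the points at distance
at least `exp (-c)` from the removed set is at most `C(T, c)` times the sup norm of `f` over the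
points at distance at least `exp (-S c)` from the removed set.

For every `0 < q < 1` and every sequence `S 0, S 1, …` of functions there is a family of sequences
`r X`, indexed by the subsets `X` of `ℕ`, satisfying the conditions of the problem, and windows
`[w n, w (n + 1)]`, `w n → ∞`, such that for `X ≠ Y` every isomorphism, and more generally every open
continuous linear map, from `O(D(q, r X))` to `O(D(q, r Y))` violates the tameness estimate with
`S i` in every window `[w n, w (n + 1)]`, `n ≥ n0(X, Y, i)`.
-/

open Filter Set

namespace Pool.Agent.Results.MP_413903_an.TameClasses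

open Pool.Agent.Lib.MP_413903_an

theorem result (q : ℝ) (hq0 : 0 < q) (hq1 : q < 1) (S : ℕ → ℝ → ℝ) :
    ∃ (r : (ℕ → Bool) → ℕ → ℝ) (w : ℕ → ℝ), Tendsto w atTop atTop ∧
      (∀ X, Antitone (r X) ∧ (∀ j, 0 < r X j ∧ r X j ≤ (1 - q) / 8 * q ^ j) ∧
        (Summable fun j : ℕ => (Real.log (1 / r X j))⁻¹) ∧
        (Summable fun j : ℕ => (j : ℝ) / Real.log (1 / r X j)) ∧
        IsOpen (Dom q (r X)) ∧ IsConnected (Dom q (r X))) ∧
      ∀ X Y : ℕ → Bool, X ≠ Y → ∀ i : ℕ, ∃ n0 : ℕ, ∀ n, n0 ≤ n →
        ∀ T : OSp (Dom q (r X)) →L[ℂ] OSp (Dom q (r Y)), IsOpenMap T →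
          ¬ TameOn (S i) (Icc (w n) (w (n + 1))) q (r X) (r Y) T :=
  tame_classes q hq0 hq1 S

end Pool.Agent.Results.MP_413903_an.TameClasses
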